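import Pool.Agent.N755.RT.ST2

/-!
# RT/EX: the extrapolation lemma
-/

set_option autoImplicit false

namespace Pool.Agent.N755.RT.EX

open MvPolynomial Module
open Pool.Agent.N236.RT
open Pool.Agent.N755.RT.ST2

lemma ev_sum {R S : Type*} [CommSemiring R] [CommSemiring S] [Algebra R S] (u v : S) (Q : Pol R) :
    ev u v Q = ∑ m ∈ Q.support, algebraMap R S (coeff m Q) * (u ^ m 0 * v ^ m 1) := by
  unfold ev
  rw [aeval_def, eval₂_eq']
  refine Finset.sum_congr rfl fun m _ => ?_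
  rw [Fin.prod_univ_two]
  rfl

lemma card_supp {R : Type*} [CommSemiring R] {A B : ℕ} {Q : Pol R} (h : Bd A B Q) :
    Q.support.card ≤ (A + 1) * (B + 1) := by
  classical
  have h1 : Q.support.card ≤ (Finset.range (A + 1) ×ˢ Finset.range (B + 1)).card := by
    refine Finset.card_le_card_of_injOn (fun m => (m 0, m 1)) ?_ ?_
    · intro m hm
      obtain ⟨h2, h3⟩ := h m hm
      simp only [Finset.coe_product, Set.mem_prod, Finset.mem_coe, Finset.mem_range]
      omega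
    · intro m _ m' _ hmm
      simp only [Prod.mk.injEq] at hmm
      ext i
      fin_cases i
      · exact hmm.1
      · exact hmm.2
  rwa [Finset.card_product, Finset.card_range, Finset.card_range] at h1

lemma norm_ev_le {A B : ℕ} {Q : Pol ℤ} {M : ℕ} (h : Bd A B Q) (hM : ∀ m, |coeff m Q| ≤ (M : ℤ))
    (u v : ℂ) : ‖ev u v Q‖ ≤ ((A : ℝ) + 1) * (B + 1) * M * ((max 1 ‖u‖) ^ A * (max 1 ‖v‖) ^ B) := by
  rw [ev_sum]
  have h1 : ∀ m ∈ Q.support, ‖algebraMap ℤ ℂ (coeff m Q) * (u ^ m 0 * v ^ m 1)‖ ≤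
      M * ((max 1 ‖u‖) ^ A * (max 1 ‖v‖) ^ B) := by
    intro m hm
    obtain ⟨h2, h3⟩ := h m hm
    rw [norm_mul, norm_mul, norm_pow, norm_pow]
    have h4 : ‖algebraMap ℤ ℂ (coeff m Q)‖ ≤ M := by
      have : algebraMap ℤ ℂ (coeff m Q) = ((coeff m Q : ℤ) : ℂ) := rfl
      rw [this, Complex.norm_intCast]
      exact_mod_cast hM m
    have h5 : ‖u‖ ^ m 0 ≤ (max 1 ‖u‖) ^ A :=
      (pow_le_pow_left₀ (norm_nonneg _) (le_max_right _ _) _).trans
        (pow_le_pow_right₀ (le_max_left _ _) h2)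
    have h6 : ‖v‖ ^ m 1 ≤ (max 1 ‖v‖) ^ B :=
      (pow_le_pow_left₀ (norm_nonneg _) (le_max_right _ _) _).trans
        (pow_le_pow_right₀ (le_max_left _ _) h3)
    gcongr
  refine (norm_sum_le_of_le _ h1).trans ?_
  rw [Finset.sum_const, nsmul_eq_mul]
  have h2 : (Q.support.card : ℝ) ≤ ((A : ℝ) + 1) * (B + 1) := by exact_mod_cast card_supp h
  have h3 : 0 ≤ (M : ℝ) * ((max 1 ‖u‖) ^ A * (max 1 ‖v‖) ^ B) := by positivity
  calc (Q.support.card : ℝ) * (M * ((max 1 ‖u‖) ^ A * (max 1 ‖v‖) ^ B))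
      ≤ ((A : ℝ) + 1) * (B + 1) * (M * ((max 1 ‖u‖) ^ A * (max 1 ‖v‖) ^ B)) :=
        mul_le_mul_of_nonneg_right h2 h3
    _ = _ := by ring

theorem t_ex (hEXT : S_EXT) (hTAY2 : S_TAY2) (hTAY4 : S_TAY4) : S_EX := by
  intro K _ _ x y hx hy P A B M T t p hPB hPM hM1 hPV hp ht1 htT hlog a b hab
  by_contra hz
  set Q := D a b P with hQ
  obtain ⟨hQB, hQM⟩ := hTAY4 P A B M hPB hPM a b
  have hQV : VO (T - (a + b)) x y Q := by
    intro a' b' h1
    rw [hQ, hTAY2 ℤ P a' b' a b]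
    unfold ev
    rw [map_mul]
    have h2 : aeval ![x, y] (D (a' + a) (b' + b) P) = 0 := hPV (a' + a) (b' + b) (by omega)
    rw [h2, mul_zero]
  have h1 := hEXT K x y hx hy Q (T - (a + b)) p hQV hp hz
  set N := finrank ℚ K with hN
  have hNpos : 0 < N := Module.finrank_pos
  have hp0 : (1 : ℝ) < p := by exact_mod_cast hp.one_lt
  set z := ev (x ^ p) (y ^ p) Q with hzdef
  have hσz : ∀ σ : K →ₐ[ℚ] ℂ, σ z ≠ 0 := fun σ h => hz ((map_eq_zero σ).1 h)
  have hσ : ∀ σ : K →ₐ[ℚ] ℂ, Real.log ‖σ z‖ ≤ Real.log (((A : ℝ) + 1) * (B + 1)) +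
      (Real.log M + (a + b : ℕ) * Real.log (A + B + 1)) +
      p * (A * Real.log (max 1 ‖σ x‖) + B * Real.log (max 1 ‖σ y‖)) := by
    intro σ
    have h2 : σ z = ev (σ (x ^ p)) (σ (y ^ p)) Q := by
      have := ev_map (σ.restrictScalars ℤ) (x ^ p) (y ^ p) Q
      exact this.symm
    have h3 := norm_ev_le hQB (M := (A + B + 1) ^ (a + b) * M) hQM (σ (x ^ p)) (σ (y ^ p))
    rw [← h2] at h3
    have hmx : ∀ w : K, max 1 ‖σ (w ^ p)‖ = (max 1 ‖σ w‖) ^ p := by
      intro w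
      rw [map_pow, norm_pow]
      rcases le_total 1 ‖σ w‖ with h | h
      · rw [max_eq_right h, max_eq_right (one_le_pow₀ h)]
      · rw [max_eq_left h, max_eq_left (pow_le_one₀ (norm_nonneg _) h), one_pow]
    rw [hmx, hmx] at h3
    have h4 : (0 : ℝ) < max 1 ‖σ x‖ := lt_of_lt_of_le one_pos (le_max_left _ _)
    have h5 : (0 : ℝ) < max 1 ‖σ y‖ := lt_of_lt_of_le one_pos (le_max_left _ _)
    have hM0 : (0 : ℝ) < M := by exact_mod_cast hM1
    have hAB : (0 : ℝ) < (A : ℝ) + B + 1 := by positivity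
    have h6 := Real.log_le_log (norm_pos_iff.2 (hσz σ)) h3
    have hMM : (((A + B + 1) ^ (a + b) * M : ℕ) : ℝ) ≠ 0 := by
      push_cast
      positivity
    have hX : (max 1 ‖σ x‖ ^ p) ^ A * (max 1 ‖σ y‖ ^ p) ^ B ≠ 0 := by positivity
    have hAB1 : ((A : ℝ) + 1) * (B + 1) ≠ 0 := by positivity
    rw [Real.log_mul (mul_ne_zero hAB1 hMM) hX, Real.log_mul hAB1 hMM,
      Real.log_mul (x := (max 1 ‖σ x‖ ^ p) ^ A) (y := (max 1 ‖σ y‖ ^ p) ^ B)
        (by positivity) (by positivity), Real.log_pow,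
      Real.log_pow, Real.log_pow, Real.log_pow] at h6
    have h7 : Real.log (((A + B + 1) ^ (a + b) * M : ℕ) : ℝ) =
        (a + b : ℕ) * Real.log (A + B + 1) + Real.log M := by
      push_cast
      rw [Real.log_mul (by positivity) (by positivity), Real.log_pow]
      push_cast
      ring
    rw [h7] at h6
    refine h6.trans (le_of_eq ?_)
    ring
  have h8 : ((T - (a + b) : ℕ) : ℝ) * N * Real.log p ≤ ∑ σ : K →ₐ[ℚ] ℂ, Real.log ‖σ z‖ := by
    have h9 := Real.log_le_log (by positivity) h1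
    rw [Real.log_pow, Real.log_prod (fun σ _ => norm_ne_zero_iff.2 (hσz σ))] at h9
    push_cast at h9 ⊢
    exact h9
  have h10 : ∑ σ : K →ₐ[ℚ] ℂ, Real.log ‖σ z‖ ≤ N * (Real.log (((A : ℝ) + 1) * (B + 1)) +
      (Real.log M + (a + b : ℕ) * Real.log (A + B + 1))) + p * (A * lam x + B * lam y) := by
    refine (Finset.sum_le_sum fun σ _ => hσ σ).trans (le_of_eq ?_)
    rw [Finset.sum_add_distrib, Finset.sum_const, Finset.card_univ, nsmul_eq_mul,
      ← Finset.mul_sum, Finset.sum_add_distrib, ← Finset.mul_sum, ← Finset.mul_sum]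
    have : Fintype.card (K →ₐ[ℚ] ℂ) = N := AlgHom.card ℚ K ℂ
    rw [this]
    rfl
  have h11 : ((T - (a + b) : ℕ) : ℝ) * Real.log p ≤ (Real.log (((A : ℝ) + 1) * (B + 1)) +
      (Real.log M + (a + b : ℕ) * Real.log (A + B + 1))) + p * (A * lam x + B * lam y) / N := by
    have hN0 : (0 : ℝ) < N := by exact_mod_cast hNpos
    have h12 := h8.trans h10
    rw [← sub_nonneg] at h12 ⊢
    have h13 : (Real.log (((A : ℝ) + 1) * (B + 1)) +
      (Real.log M + (a + b : ℕ) * Real.log (A + B + 1))) + p * (A * lam x + B * lam y) / N -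
        ((T - (a + b) : ℕ) : ℝ) * Real.log p = (N * (Real.log (((A : ℝ) + 1) * (B + 1)) +
      (Real.log M + (a + b : ℕ) * Real.log (A + B + 1))) + p * (A * lam x + B * lam y) -
        ((T - (a + b) : ℕ) : ℝ) * N * Real.log p) / N := by
      field_simp
    rw [h13]
    positivity
  have h14 : (0 : ℝ) ≤ Real.log p := Real.log_nonneg hp0.le
  have h15 : (0 : ℝ) ≤ Real.log ((A : ℝ) + B + 1) :=
    Real.log_nonneg (by have := Nat.cast_nonneg (α := ℝ) A; have := Nat.cast_nonneg (α := ℝ) B; linarith)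
  have h16 : ((T : ℝ) - t) * Real.log p ≤ ((T - (a + b) : ℕ) : ℝ) * Real.log p := by
    refine mul_le_mul_of_nonneg_right ?_ h14
    rw [Nat.cast_sub (by omega)]
    have : ((a + b : ℕ) : ℝ) ≤ t := by exact_mod_cast hab.le
    linarith
  have h17 : ((a + b : ℕ) : ℝ) * Real.log (A + B + 1) ≤ t * Real.log (A + B + 1) := by
    refine mul_le_mul_of_nonneg_right ?_ h15
    exact_mod_cast hab.le
  linarith

end Pool.Agent.N755.RT.EX
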