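import Pool.Agent.N236.RT.Stm

/-!
# RT/ST2: the second stage
-/

set_option autoImplicit false

namespace Pool.Agent.N755.RT.ST2

open MvPolynomial Module
open Pool.Agent.N236.RT

lemma D_zero {R : Type*} [CommSemiring R] (P : Pol R) : D 0 0 P = P := by
  unfold D
  conv_rhs => rw [P.as_sum]
  refine Finset.sum_congr rfl fun m _ => ?_
  have h1 : (Finsupp.single (0 : Fin 2) (m 0 - 0) + Finsupp.single 1 (m 1 - 0) : Fin 2 →₀ ℕ) = m := by
    ext i
    fin_cases i <;> simp
  rw [h1]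
  simp

lemma relPrime {R : Type*} [CommMonoidWithZero R] {F G : R} (hF : Irreducible F) (h : ¬ F ∣ G) :
    IsRelPrime F G := by
  intro d h1 h2
  obtain ⟨e, he⟩ := h1
  rcases hF.isUnit_or_isUnit he with h3 | h3
  · exact h3
  · exfalso
    apply h
    refine dvd_trans ?_ h2
    rw [he]
    obtain ⟨u, rfl⟩ := h3
    exact ⟨(u⁻¹ : Rˣ), by rw [mul_assoc, Units.mul_inv, mul_one]⟩

lemma vec_pow {K : Type*} [CommSemiring K] (x y : K) (i : ℕ) : (![x, y] : Fin 2 → K) ^ i = ![x ^ i, y ^ i] := by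
  ext j
  fin_cases j <;> simp

lemma ev_expand {R S : Type*} [CommSemiring R] [CommSemiring S] [Algebra R S] (x y : S)
    (i : ℕ) (P : Pol R) : ev x y (expand i P) = ev (x ^ i) (y ^ i) P := by
  unfold ev
  rw [aeval_expand, vec_pow]

lemma ev_map {R S L : Type*} [CommSemiring R] [CommSemiring S] [CommSemiring L] [Algebra R S]
    [Algebra R L] (f : S →ₐ[R] L) (x y : S) (P : Pol R) :
    ev (f x) (f y) P = f (ev x y P) := by
  unfold ev
  have h : (![f x, f y] : Fin 2 → L) = fun j => f (![x, y] j) := by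
    ext j
    fin_cases j <;> rfl
  rw [h]
  have := (MvPolynomial.comp_aeval_apply (R := R) (![x, y] : Fin 2 → S) f P)
  rw [this]

lemma bd_expand {R : Type*} [CommSemiring R] {A B : ℕ} {P : Pol R} (h : Bd A B P) (i : ℕ) :
    Bd (i * A) (i * B) (expand i P) := by
  classical
  intro m hm
  have h1 := support_expand_subset P hm
  obtain ⟨m', hm', rfl⟩ := Finset.mem_image.1 h1
  obtain ⟨h2, h3⟩ := h m' hm'
  simp only [Finsupp.smul_apply, smul_eq_mul]
  exact ⟨Nat.mul_le_mul_left _ h2, Nat.mul_le_mul_left _ h3⟩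

lemma bd_deg {R : Type*} [CommSemiring R] (P : Pol R) : Bd (P.degreeOf 0) (P.degreeOf 1) P :=
  fun _ hm => ⟨monomial_le_degreeOf 0 hm, monomial_le_degreeOf 1 hm⟩

/-- the rational polynomial of an integral polynomial -/
noncomputable def toQ (P : Pol ℤ) : Pol ℚ := map (Int.castRingHom ℚ) P

lemma toQ_ne {P : Pol ℤ} (h : P ≠ 0) : toQ P ≠ 0 := by
  intro h1
  apply h
  exact (MvPolynomial.map_injective (Int.castRingHom ℚ) Int.cast_injective) (by rw [map_zero]; exact h1)

lemma toQ_bd {P : Pol ℤ} {A B : ℕ} (h : Bd A B P) : Bd A B (toQ P) :=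
  fun m hm => h m (MvPolynomial.support_map_subset _ _ hm)

lemma toQ_ev {K : Type} [Field K] [NumberField K] (x y : K) (P : Pol ℤ) :
    ev x y (toQ P) = ev x y P := by
  unfold ev toQ
  have h : (Int.castRingHom ℚ) = algebraMap ℤ ℚ := rfl
  rw [h]
  exact aeval_map_algebraMap ℚ _ P

theorem t_st2 (hEX : S_EX) (hAUX : S_AUX) (hDIM : S_DIM2) (hBEZ : S_BEZ) (hTL : S_TL) :
    S_ST2 := by
  intro K _ _ x y F T A B κ I hx hy hG hF hC h0 hκ0 hκ hT hI hs hlog hsz hcard hno
  set a := F.degreeOf 0 with ha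
  set b := F.degreeOf 1 with hb
  have hA : (0 : ℝ) < (A : ℝ) + 1 := by positivity
  have hB : (0 : ℝ) < (B : ℝ) + 1 := by positivity
  have hTa : (T : ℝ) * a ≤ κ * (A + 1) := by
    have h1 : (T : ℝ) * a * (B + 1) ≤ κ * (A + 1) * (B + 1) := by
      have : 0 ≤ (T : ℝ) * b * (A + 1) := by positivity
      linarith
    exact le_of_mul_le_mul_right h1 hB
  have hTb : (T : ℝ) * b ≤ κ * (B + 1) := by
    have h1 : (T : ℝ) * b * (A + 1) ≤ κ * (B + 1) * (A + 1) := by
      have : 0 ≤ (T : ℝ) * a * (B + 1) := by positivity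
      linarith
    exact le_of_mul_le_mul_right h1 hA
  have hTa' : T * a ≤ A + 1 := by
    have : (T : ℝ) * a ≤ A + 1 := hTa.trans (by nlinarith)
    exact_mod_cast this
  have hTb' : T * b ≤ B + 1 := by
    have : (T : ℝ) * b ≤ B + 1 := hTb.trans (by nlinarith)
    exact_mod_cast this
  obtain ⟨W, hW1, hW2, hW3⟩ := hDIM K x y A B T a b F hF.ne_zero (bd_deg F) h0 hTa' hTb'
  have hW4 : (1 - κ) * (((A : ℝ) + 1) * (B + 1)) ≤ W.card := by
    have h1 : (((A + 1 - T * a) * (B + 1 - T * b) : ℕ) : ℝ) ≤ W.card := by exact_mod_cast hW3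
    refine le_trans ?_ h1
    rw [Nat.cast_mul, Nat.cast_sub hTa', Nat.cast_sub hTb']
    push_cast
    have h2 : 0 ≤ (T : ℝ) * a * (T * b) := by positivity
    nlinarith
  obtain ⟨P, M, hP0, hPB, hPV, hM1, hPM, hML⟩ :=
    hAUX K x y hx.2.1 hy.2.1 A B T κ W hκ0 hκ hW1 hW2 hW4
  have hev : ∀ i ∈ I, ev (x ^ i) (y ^ i) P = 0 := by
    intro i hi
    have h1 := hEX K x y hx.2.1 hy.2.1 P A B M T 1 i hPB hPM hM1 hPV (hI i hi) le_rfl (by omega)
      (by
        have := hlog i hi
        push_cast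
        rw [one_mul]
        linarith)
    have h2 := h1 0 0 (by norm_num)
    rwa [D_zero] at h2
  have hdvd : ∀ i ∈ I, F ∣ expand i (toQ P) := by
    intro i hi
    by_contra hnd
    have hrp := relPrime hF hnd
    classical
    let S : Finset (Qb × Qb) := Finset.univ.image fun σ : K →ₐ[ℚ] Qb => (σ x, σ y)
    have hS : S.card = finrank ℚ K := by
      rw [Finset.card_image_of_injective _ hG, Finset.card_univ]
      exact AlgHom.card ℚ K Qb
    have h1 := hBEZ ℚ Qb F (expand i (toQ P)) a b (i * A) (i * B) hrp (bd_deg F)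
      (bd_expand (toQ_bd hPB) i) S (by
        intro s hs
        obtain ⟨σ, _, rfl⟩ := Finset.mem_image.1 hs
        refine ⟨?_, ?_⟩
        · show ev (σ x) (σ y) F = 0
          rw [ev_map σ x y F, h0, map_zero]
        · show ev (σ x) (σ y) (expand i (toQ P)) = 0
          rw [ev_map σ x y, ev_expand, toQ_ev, hev i hi, map_zero])
    rw [hS] at h1
    have h2 := hsz i hi
    have h3 : a * (i * B) + i * A * b = i * (a * B + b * A) := by ring
    omega
  obtain ⟨i, hi, h1⟩ := hTL F (toQ P) I A B hF hC hcard (toQ_ne hP0) (toQ_bd hPB)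
    (fun i hi => ⟨hI i hi, hdvd i hi⟩)
  exact hno i hi h1

end Pool.Agent.N755.RT.ST2
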